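import Pool.Agent.P.MP_f1f2b3_lc.Main

namespace Pool.Agent.Results.MP_f1f2b3_lc.LevyChar

open Pool.Agent.P.MP_f1f2b3_lc

universe u

/-- There is a formula `φ` with one free variable such that, in every model of ZFC, an
inaccessible `θ` is weakly compact exactly when the weakest condition of `Col(ω₁, <θ)` forces
`φ` of the canonical name of `θ`. -/
theorem result : ∃ φ : Fml, FreeLt φ 1 ∧ ∀ (A : Type u) (E : A → A → Prop), IsZFC E →
    ∀ θ : A, Inacc E θ →
      (∃ P one τ : A, IsLevy E θ P ∧ (∀ x, ¬ E x one) ∧ IsCheck E one θ τ) ∧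
      ∀ P one τ : A, IsLevy E θ P → (∀ x, ¬ E x one) → IsCheck E one θ τ →
        (Arrow E θ ↔ Forces E P φ one fun _ => τ) := by
  obtain ⟨φ, h1, h2⟩ := main.{u}
  exact ⟨φ, h1, fun A E hA θ h => ⟨ex_data hA h, fun P one τ => h2 A E hA θ P one τ h⟩⟩

end Pool.Agent.Results.MP_f1f2b3_lc.LevyChar
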